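import Mathlib

namespace Pool.Agent.Results.MP_cd64ef_nt.Counter

open Finset
open scoped Pointwise

/-- number of representations `g = a + b` -/
def rep {G : Type} [AddCommGroup G] [DecidableEq G] (A B : Finset G) (g : G) : ℕ :=
  ((A ×ˢ B).filter (fun p => p.1 + p.2 = g)).card

/-- the `t`-popular sumset -/
def pop {G : Type} [AddCommGroup G] [DecidableEq G] (A B : Finset G) (t : ℕ) : Set G :=
  {g | t ≤ rep A B g}

lemma pop_eq {G : Type} [AddCommGroup G] [DecidableEq G] (A B : Finset G) (t : ℕ) (ht : 1 ≤ t) :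
    pop A B t = (((A + B).filter (fun g => t ≤ rep A B g) : Finset G) : Set G) := by
  ext g
  simp only [pop, Set.mem_setOf_eq, coe_filter]
  refine ⟨fun h => ⟨?_, h⟩, fun h => h.2⟩
  have : 0 < rep A B g := by omega
  obtain ⟨p, hp⟩ := Finset.card_pos.1 this
  rw [mem_filter, mem_product] at hp
  rw [← hp.2]
  exact add_mem_add hp.1.1 hp.1.2

/-- first set -/
def A0 : Finset (ZMod 6 × ℤ) := {(0, 0), (1, 0), (3, 0), (4, 0)}

/-- second set -/
def B0 : Finset (ZMod 6 × ℤ) :=
  {(0, 0), (1, 0), (3, 0), (4, 0), (0, 1), (1, 1), (2, 1), (3, 1), (4, 1), (5, 1)}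

/-- the 3-popular sumset -/
def P3 : Finset (ZMod 6 × ℤ) := {(1, 0), (4, 0), (0, 1), (1, 1), (2, 1), (3, 1), (4, 1), (5, 1)}

lemma pop3 : pop A0 B0 3 = (P3 : Set (ZMod 6 × ℤ)) := by
  rw [pop_eq _ _ _ (by norm_num)]
  congr 1
  decide +kernel

lemma stab3 : (AddAction.stabilizer (ZMod 6 × ℤ) (pop A0 B0 3) : Set (ZMod 6 × ℤ)) =
    (({(0, 0), (3, 0)} : Finset (ZMod 6 × ℤ)) : Set (ZMod 6 × ℤ)) := by
  rw [pop3]
  ext ⟨x, y⟩
  rw [SetLike.mem_coe, AddAction.mem_stabilizer_iff, ← Finset.coe_vadd_finset, Finset.coe_inj,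
    Finset.mem_coe]
  constructor
  · intro h
    have h1 : (x, y) +ᵥ ((1 : ZMod 6), (0 : ℤ)) ∈ P3 := by
      rw [← h]; exact Finset.vadd_mem_vadd_finset (by decide)
    have h2 : (x, y) +ᵥ ((0 : ZMod 6), (1 : ℤ)) ∈ P3 := by
      rw [← h]; exact Finset.vadd_mem_vadd_finset (by decide)
    have h3 : ∀ q ∈ P3, q.2 = 0 ∨ q.2 = 1 := by decide
    have h4 := h3 _ h1
    have h5 := h3 _ h2
    simp only [vadd_eq_add, Prod.mk_add_mk] at h4 h5
    have hy : y = 0 := by omega
    subst hy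
    revert h1
    clear h h2 h4 h5
    revert x
    decide
  · intro h
    simp only [mem_insert, mem_singleton] at h
    rcases h with h | h <;> rw [h] <;> decide

lemma card_stab3 : Nat.card (AddAction.stabilizer (ZMod 6 × ℤ) (pop A0 B0 3)) = 2 := by
  have : Nat.card (AddAction.stabilizer (ZMod 6 × ℤ) (pop A0 B0 3)) =
      (AddAction.stabilizer (ZMod 6 × ℤ) (pop A0 B0 3) : Set (ZMod 6 × ℤ)).ncard := rfl
  rw [this, stab3, Set.ncard_coe_finset]
  decide

theorem result :
    ∃ (G : Type) (_ : AddCommGroup G) (_ : DecidableEq G) (t s u : ℕ) (A B : Finset G),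
      1 ≤ t ∧ t ≤ A.card ∧ t ≤ B.card ∧
      (∑ i ∈ Finset.Icc 1 t, ((pop A B i).ncard : ℤ)) <
        (t : ℤ) * A.card + (t : ℤ) * B.card - (t : ℤ) ^ 2 ∧
      1 ≤ u ∧ u ≤ Nat.card (AddAction.stabilizer G (pop A B t)) ∧
      t = s * Nat.card (AddAction.stabilizer G (pop A B t)) + u ∧
      ¬ ∃ A' B' : Finset G, A' ⊆ A ∧ B' ⊆ B ∧ (A \ A').card + (B \ B').card < u ∧
        ((A' + B' : Finset G) : Set G) = pop A' B' u ∧ pop A' B' u = pop A B u ∧
        AddAction.stabilizer G ((A' + B' : Finset G) : Set G) =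
          AddAction.stabilizer G (pop A B t) ∧
        AddAction.stabilizer G (pop A' B' u) = AddAction.stabilizer G (pop A B t) := by
  refine ⟨ZMod 6 × ℤ, inferInstance, inferInstance, 3, 1, 1, A0, B0, by norm_num, by decide,
    by decide, ?_, le_rfl, by rw [card_stab3]; norm_num, by rw [card_stab3], ?_⟩
  · rw [show Finset.Icc 1 3 = {1, 2, 3} by decide]
    rw [Finset.sum_insert (by decide), Finset.sum_insert (by decide), Finset.sum_singleton,
      pop_eq _ _ 1 (by norm_num), pop_eq _ _ 2 (by norm_num), pop_eq _ _ 3 (by norm_num),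
      Set.ncard_coe_finset, Set.ncard_coe_finset, Set.ncard_coe_finset]
    decide +kernel
  · rintro ⟨A', B', hA, hB, hc, -, -, hs, -⟩
    have hA' : A' = A0 := by
      apply Finset.Subset.antisymm hA
      apply Finset.sdiff_eq_empty_iff_subset.1
      apply Finset.card_eq_zero.1
      omega
    have hB' : B' = B0 := by
      apply Finset.Subset.antisymm hB
      apply Finset.sdiff_eq_empty_iff_subset.1
      apply Finset.card_eq_zero.1
      omega
    subst hA' hB'
    have h1 : ((1 : ZMod 6), (0 : ℤ)) ∈ AddAction.stabilizer (ZMod 6 × ℤ)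
        ((A0 + B0 : Finset (ZMod 6 × ℤ)) : Set (ZMod 6 × ℤ)) := by
      rw [AddAction.mem_stabilizer_iff, ← Finset.coe_vadd_finset, Finset.coe_inj]
      decide +kernel
    rw [hs, ← SetLike.mem_coe, stab3, Finset.mem_coe] at h1
    revert h1
    decide

end Pool.Agent.Results.MP_cd64ef_nt.Counter
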